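import Mathlib
import Pool.Agent.Q76.SawCone

/-!
# MP_924b48_an: purely unrectifiable plane sets with vanishing conical upper density
-/

namespace Pool.Agent.Results.MP_924b48_an.NoConicalDensity

open MeasureTheory Filter Topology Set Metric
open scoped ENNReal NNReal

/-- `F` is `m`-rectifiable: up to an `ℋᵐ`-null set it is covered by countably many Lipschitz
images of `ℝᵐ`. -/
def IsRectifiable {n : ℕ} (m : ℕ) (F : Set (EuclideanSpace ℝ (Fin n))) : Prop :=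
  ∃ f : ℕ → EuclideanSpace ℝ (Fin m) → EuclideanSpace ℝ (Fin n),
    (∀ i, ∃ K : ℝ≥0, LipschitzWith K (f i)) ∧ μH[(m : ℝ)] (F \ ⋃ i, range (f i)) = 0

/-- `E` is purely `m`-unrectifiable. -/
def IsPurelyUnrectifiable {n : ℕ} (m : ℕ) (E : Set (EuclideanSpace ℝ (Fin n))) : Prop :=
  ∀ F : Set (EuclideanSpace ℝ (Fin n)), IsRectifiable m F → μH[(m : ℝ)] (E ∩ F) = 0

/-- The cone at `x` with axis `V` and opening `α`, truncated at radius `r`. -/
def cone {n : ℕ} (x : EuclideanSpace ℝ (Fin n)) (r : ℝ)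
    (V : Submodule ℝ (EuclideanSpace ℝ (Fin n))) (α : ℝ) : Set (EuclideanSpace ℝ (Fin n)) :=
  {y | y ∈ closedBall x r ∧ infDist (y - x) (V : Set (EuclideanSpace ℝ (Fin n))) < α * ‖y - x‖}

/-- The upper density `Θ_α(μ, x)`. -/
noncomputable def Theta {n : ℕ} (m : ℕ) (α : ℝ) (μ : Measure (EuclideanSpace ℝ (Fin n)))
    (x : EuclideanSpace ℝ (Fin n)) : ℝ≥0∞ :=
  limsup (fun r : ℝ => ⨅ V : {V : Submodule ℝ (EuclideanSpace ℝ (Fin n)) //
    Module.finrank ℝ V = n - m}, μ (cone x r V α) / ENNReal.ofReal ((2 * r) ^ m)) (𝓝[>] 0)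

/-- The line spanned by `(1, ε)`. -/
noncomputable def line (ε : ℝ) : Submodule ℝ (EuclideanSpace ℝ (Fin 2)) :=
  Submodule.span ℝ {WithLp.toLp 2 ![1, ε]}

lemma finrank_line (ε : ℝ) : Module.finrank ℝ (line ε) = 2 - 1 := by
  have hne : (WithLp.toLp 2 ![1, ε] : EuclideanSpace ℝ (Fin 2)) ≠ 0 := by
    intro h
    have := congrArg (fun v : EuclideanSpace ℝ (Fin 2) => (v 0 : ℝ)) h
    simp at this
  exact finrank_span_singleton hne

lemma cone_line {ε α : ℝ} (hε : ε = 1 ∨ ε = -1) {z : EuclideanSpace ℝ (Fin 2)}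
    (h : infDist z (line ε : Set (EuclideanSpace ℝ (Fin 2))) < α * ‖z‖) (hα : α ^ 2 < 1 / 2) :
    2 * ((1 - 2 * α ^ 2) / 4) * (z 0) ^ 2 < ε * (z 0 * z 1) := by
  obtain ⟨v, hv, hd⟩ := (infDist_lt_iff ⟨0, Submodule.zero_mem _⟩).mp h
  obtain ⟨t, rfl⟩ := Submodule.mem_span_singleton.mp hv
  have h1 : dist z (t • WithLp.toLp 2 ![1, ε]) ^ 2 < α ^ 2 * ‖z‖ ^ 2 := by
    rw [← mul_pow]
    exact pow_lt_pow_left₀ hd dist_nonneg (by norm_num)
  rw [dist_eq_norm, EuclideanSpace.norm_sq_eq, EuclideanSpace.norm_sq_eq, Fin.sum_univ_two,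
    Fin.sum_univ_two] at h1
  simp only [Real.norm_eq_abs, sq_abs, PiLp.sub_apply, PiLp.smul_apply, smul_eq_mul,
    Matrix.cons_val_zero, Matrix.cons_val_one] at h1
  obtain ⟨a, ha⟩ : ∃ a : ℝ, z 0 = a := ⟨_, rfl⟩
  obtain ⟨b, hb⟩ : ∃ b : ℝ, z 1 = b := ⟨_, rfl⟩
  rw [ha, hb] at h1 ⊢
  have hε2 : ε ^ 2 = 1 := by rcases hε with rfl | rfl <;> norm_num
  have h2 : (a - ε * b) ^ 2 ≤ 2 * ((a - t * 1) ^ 2 + (b - t * ε) ^ 2) := by
    have e : a - ε * b = (a - t) - ε * (b - t * ε) := by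
      have : t = t * ε ^ 2 := by rw [hε2, mul_one]
      linear_combination this
    rw [e]
    have h3 : (ε * (b - t * ε)) ^ 2 = (b - t * ε) ^ 2 := by rw [mul_pow, hε2, one_mul]
    nlinarith [sq_nonneg ((a - t) + ε * (b - t * ε))]
  have h4 : (a - ε * b) ^ 2 = a ^ 2 + b ^ 2 - 2 * (ε * (a * b)) := by
    have : (a - ε * b) ^ 2 = a ^ 2 + ε ^ 2 * b ^ 2 - 2 * (ε * (a * b)) := by ring
    rw [this, hε2, one_mul]
  nlinarith [sq_nonneg b, mul_nonneg (by linarith : 0 ≤ 1 - 2 * α ^ 2) (sq_nonneg b)]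

open Q76.SawFunction Q76.SawGraph in
/-- The bound at one scale. -/
lemma ratio_le {s : ℕ → ℝ} (hs : ∀ k, s k ∈ Icc (0 : ℝ) 1) {α : ℝ} (hα : α ^ 2 < 1 / 2)
    (hsσ : ∀ k, s k ≤ (1 - 2 * α ^ 2) / 4) {B : ℝ} (hB : 0 < B) {K : ℕ}
    (hK : ∀ i, K ≤ i → |inc s i| ≤ B) {p : EuclideanSpace ℝ (Fin 2)} (hp : p ∈ E s)
    (hbad : ∀ k, K ≤ k → p ∉ bad k) {r : ℝ} (hr : 0 < r) (hrK : r < 1 / M (K + 1)) :
    (⨅ V : {V : Submodule ℝ (EuclideanSpace ℝ (Fin 2)) // Module.finrank ℝ V = 2 - 1},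
      (μH[((1 : ℕ) : ℝ)].restrict (E s)) (cone p r V α) / ENNReal.ofReal ((2 * r) ^ 1)) ≤
      ENNReal.ofReal (24 * B / (1 - 2 * α ^ 2)) := by
  have hσ : 0 < (1 - 2 * α ^ 2) / 4 := by linarith
  have hσ' : 0 < 1 - 2 * α ^ 2 := by linarith
  obtain ⟨k, hkK, hk1, hk2⟩ := exists_scale hr hrK
  obtain ⟨ε, hε, hcone⟩ := cone_estimate hs hσ hsσ (fun i hi => hK i (by omega)) hk1 hk2 hp
    (hbad k hkK)
  refine (iInf_le _ ⟨line ε, finrank_line ε⟩).trans ?_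
  rw [Measure.restrict_apply' (measurableSet_E hs), Nat.cast_one, pow_one]
  set ρ : ℝ := 2 * B * r / ((1 - 2 * α ^ 2) / 4) with hρ
  have hρ0 : 0 ≤ ρ := by positivity
  have hsub : cone p r (line ε) α ∩ E s ⊆ E s ∩ {q | q 0 ∈ Icc (p 0 - ρ) (p 0 + ρ)} := by
    rintro q ⟨⟨hq1, hq2⟩, hqE⟩
    refine ⟨hqE, ?_⟩
    have h1 : |q 0 - p 0| ≤ r := (abs_coord_le q p 0).trans hq1
    have h2 := cone_line hε hq2 hα
    simp only [PiLp.sub_apply] at h2
    have h3 := hcone q hqE h1 h2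
    rw [abs_le] at h3
    have h4 : p 0 - ρ ≤ q 0 := by linarith [h3.1]
    have h5 : q 0 ≤ p 0 + ρ := by linarith [h3.2]
    exact ⟨h4, h5⟩
  have hm : μH[1] (cone p r (line ε) α ∩ E s) ≤ ENNReal.ofReal (3 * ((p 0 + ρ) - (p 0 - ρ))) :=
    (measure_mono hsub).trans (measure_strip_le hs (by linarith))
  refine (ENNReal.div_le_div_right hm _).trans ?_
  rw [← ENNReal.ofReal_div_of_pos (by positivity)]
  apply ENNReal.ofReal_le_ofReal
  apply le_of_eq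
  rw [hρ]
  field_simp
  ring

open Q76.SawFunction Q76.SawGraph in
/-- For every `0 < α < 1/√2` there is a Borel set `E ⊆ ℝ²`, purely `1`-unrectifiable and with
`0 < ℋ¹(E) < ∞`, such that `Θ_α(ℋ¹|_E, x) = 0` for `ℋ¹`-almost every `x ∈ E`. -/
theorem result : ∀ α : ℝ, 0 < α → α < 1 / √2 →
    ∃ E : Set (EuclideanSpace ℝ (Fin 2)), MeasurableSet E ∧ IsPurelyUnrectifiable 1 E ∧
      0 < μH[((1 : ℕ) : ℝ)] E ∧ μH[((1 : ℕ) : ℝ)] E < ∞ ∧
      ∀ᵐ x ∂(μH[((1 : ℕ) : ℝ)].restrict E), Theta 1 α (μH[((1 : ℕ) : ℝ)].restrict E) x = 0 := by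
  intro α hα0 hα1
  have hα : α ^ 2 < 1 / 2 := by
    have h1 : α ^ 2 < (1 / √2) ^ 2 := pow_lt_pow_left₀ hα1 hα0.le (by norm_num)
    have h2 : (1 / √2) ^ 2 = 1 / 2 := by
      rw [div_pow, Real.sq_sqrt (by norm_num)]
      norm_num
    rwa [h2] at h1
  have hσ : 0 < (1 - 2 * α ^ 2) / 4 := by linarith
  have hσ1 : (1 - 2 * α ^ 2) / 4 ≤ 1 := by nlinarith [sq_nonneg α]
  set s : ℕ → ℝ := slopes ((1 - 2 * α ^ 2) / 4) with hsdef
  have hsσ : ∀ k, s k ≤ (1 - 2 * α ^ 2) / 4 := slopes_le hσ.le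
  have hs : ∀ k, s k ∈ Icc (0 : ℝ) 1 := fun k => ⟨slopes_nonneg hσ.le k, (hsσ k).trans hσ1⟩
  refine ⟨E s, measurableSet_E hs, ?_, ?_, ?_, ?_⟩
  · rintro F ⟨f, hf, hF⟩
    have hcover : E s ∩ F ⊆ (F \ ⋃ i, range (f i)) ∪ ⋃ i, (E s ∩ range (f i)) := by
      rintro x ⟨hxE, hxF⟩
      by_cases hx : x ∈ ⋃ i, range (f i)
      · obtain ⟨i, hi⟩ := mem_iUnion.mp hx
        exact Or.inr (mem_iUnion.mpr ⟨i, hxE, hi⟩)
      · exact Or.inl ⟨hxF, hx⟩
    refine measure_mono_null hcover (measure_union_null hF (measure_iUnion_null fun i => ?_))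
    obtain ⟨K, hK⟩ := hf i
    let ι : ℝ → EuclideanSpace ℝ (Fin 1) := fun t => WithLp.toLp 2 fun _ => t
    have hι : LipschitzWith 1 ι := by
      refine LipschitzWith.of_dist_le_mul fun x y => ?_
      rw [NNReal.coe_one, one_mul, EuclideanSpace.dist_eq]
      simp [ι, Real.sqrt_sq_eq_abs, Real.dist_eq]
    have hrange : range (f i) = range (f i ∘ ι) := by
      apply Subset.antisymm
      · rintro _ ⟨x, rfl⟩
        refine ⟨x 0, ?_⟩
        have : ι (x 0) = x := by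
          ext j
          fin_cases j
          rfl
        simp [this]
      · exact range_comp_subset_range _ _
    rw [hrange, Nat.cast_one]
    exact inter_curve_null hs hσ.ne' (frequently_slopes_eq_top _) (frequently_slopes_eq_zero _)
      (hK.comp hι)
  · rw [Nat.cast_one]
    exact measure_E_pos
  · rw [Nat.cast_one]
    exact measure_E_lt_top hs
  · have hae : ∀ᵐ p ∂(μH[((1 : ℕ) : ℝ)].restrict (E s)), ∀ᶠ k in atTop, p ∉ bad k := by
      rw [Nat.cast_one]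
      exact ae_eventually_notMem_bad hs
    filter_upwards [hae, ae_restrict_mem (measurableSet_E hs)] with p hp hpE
    have key : ∀ B : ℝ, 0 < B → Theta 1 α (μH[((1 : ℕ) : ℝ)].restrict (E s)) p ≤
        ENNReal.ofReal (24 * B / (1 - 2 * α ^ 2)) := by
      intro B hB
      have h1 : ∀ᶠ i in atTop, |inc s i| ≤ B := by
        have := (tendsto_inc_slopes hσ.le).abs
        rw [abs_zero] at this
        exact (this.eventually (gt_mem_nhds hB)).mono fun i hi => hi.le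
      obtain ⟨K, hK⟩ := eventually_atTop.mp (h1.and hp)
      unfold Theta
      refine limsup_le_of_le (by isBoundedDefault) ?_
      have hM := M_pos (K + 1)
      filter_upwards [Ioo_mem_nhdsGT (show (0 : ℝ) < 1 / M (K + 1) by positivity)] with r hr
      exact ratio_le hs hα hsσ hB (fun i hi => (hK i hi).1) hpE (fun k hk => (hK k hk).2) hr.1 hr.2
    have hlim : Tendsto (fun B : ℝ => ENNReal.ofReal (24 * B / (1 - 2 * α ^ 2))) (𝓝[>] 0)
        (𝓝 0) := by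
      rw [← ENNReal.ofReal_zero]
      apply ENNReal.tendsto_ofReal
      have h1 : Tendsto (fun B : ℝ => 24 * B / (1 - 2 * α ^ 2)) (𝓝 0)
          (𝓝 (24 * 0 / (1 - 2 * α ^ 2))) := (tendsto_id.const_mul 24).div_const _
      rw [mul_zero, zero_div] at h1
      exact h1.mono_left nhdsWithin_le_nhds
    exact le_antisymm (ge_of_tendsto hlim (eventually_mem_nhdsWithin.mono fun B hB => key B hB))
      zero_le

end Pool.Agent.Results.MP_924b48_an.NoConicalDensity
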